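import Pool.Agent.MP_1246c0_nt.H25.SpecA
import Pool.Agent.MP_db5b97_nt.H21.NT2

/-! Existence of the genus cocycles. -/

namespace Pool.Agent.MP_1246c0_nt.H25

open NumberField IsDedekindDomain Finset Pool.Agent.MP_db5b97_nt.H85
open Pool.Agent.MP_1246c0_nt.H12

namespace FF

/-- a prime with prime residue field is the kernel of a homomorphism -/
theorem res {F : Type} [Field F] [NumberField F] (w : Sp F) (l : ℕ) (hl : l.Prime)
    (hw : (l : 𝓞 F) ∈ w.asIdeal) (h : ∀ x : 𝓞 F, ∃ a : ℤ, x - a ∈ w.asIdeal) :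
    Ideal.absNorm w.asIdeal = l ∧ ∃ ψ : 𝓞 F →+* ZMod l, ∀ x, x ∈ w.asIdeal ↔ ψ x = 0 := by
  have := Fact.mk hl
  have : Nontrivial (𝓞 F ⧸ w.asIdeal) := Ideal.Quotient.nontrivial_iff.2 w.isPrime.ne_top
  have : CharP (𝓞 F ⧸ w.asIdeal) l := (CharP.charP_iff_prime_eq_zero hl).2 (by
    rw [← map_natCast (Ideal.Quotient.mk w.asIdeal), Ideal.Quotient.eq_zero_iff_mem]
    exact hw)
  have hb : Function.Bijective (ZMod.castHom (dvd_refl l) (𝓞 F ⧸ w.asIdeal)) := by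
    refine ⟨RingHom.injective _, fun y => ?_⟩
    obtain ⟨x, rfl⟩ := Ideal.Quotient.mk_surjective y
    obtain ⟨a, ha⟩ := h x
    refine ⟨a, ?_⟩
    rw [map_intCast, ← map_intCast (Ideal.Quotient.mk w.asIdeal), eq_comm, Ideal.Quotient.eq]
    exact ha
  let e := RingEquiv.ofBijective _ hb
  refine ⟨?_, e.symm.toRingHom.comp (Ideal.Quotient.mk w.asIdeal), fun x => ?_⟩
  · rw [Ideal.absNorm_apply, Submodule.cardQuot_apply, ← Nat.card_congr e.toEquiv, Nat.card_zmod]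
  · rw [← Ideal.Quotient.eq_zero_iff_mem]
    exact (map_eq_zero_iff e.symm e.symm.injective).symm

theorem prime_eq {F : Type} [Field F] [NumberField F] (w : Sp F) {l l' : ℕ} (hl : l.Prime)
    (hl' : l'.Prime) (h : (l : 𝓞 F) ∈ w.asIdeal) (h' : (l' : 𝓞 F) ∈ w.asIdeal) : l' = l := by
  by_contra hne
  have hc : IsCoprime (l' : 𝓞 F) l := ((Nat.coprime_primes hl' hl).2 hne).cast
  obtain ⟨a, b, e⟩ := hc
  exact w.isPrime.ne_top ((Ideal.eq_top_iff_one _).2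
    (e ▸ w.asIdeal.add_mem (w.asIdeal.mul_mem_left _ h') (w.asIdeal.mul_mem_left _ h)))

theorem k1 (hA : Ax0) (n : ℕ) : kap n 1 = 0 := by
  have := hA.kmul n 1 1
  rw [mul_one] at this
  exact left_eq_add.1 this

theorem kinv (hA : Ax0) (n : ℕ) (h : Ga) : kap n h⁻¹ = -kap n h := by
  have := hA.kmul n h⁻¹ h
  rw [inv_mul_cancel, k1 hA] at this
  exact eq_neg_of_add_eq_zero_left this.symm

theorem kpow (hA : Ax0) (n : ℕ) (h : Ga) (k : ℕ) : kap n (h ^ k) = k * kap n h := by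
  induction k with
  | zero => rw [pow_zero, k1 hA, Nat.cast_zero, zero_mul]
  | succ k ih => rw [pow_succ, hA.kmul, ih, Nat.cast_succ, add_mul, one_mul]

theorem in_pow (hL : SLIFT) {Q : Ideal OO} (hQ : Q.IsMaximal) {h : Ga} (hh : In Q h) (k : ℕ) :
    In Q (h ^ k) := by
  obtain ⟨-, h1, -, -, -, h2, -⟩ := hL.grp Q hQ
  induction k with
  | zero => rwa [pow_zero]
  | succ k ih => rw [pow_succ]; exact (h2 _ _ ih hh).1

/-- the sign at the real place -/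
theorem sign (Φ : Frm) (x : Om) (r : ℝ) (hx : x ≠ 0) (hr : (r : ℂ) = Φ.ρ x) :
    kch x Φ.cj = if r < 0 then 1 else 0 := by
  have h1 : Φ.ρ (sqr x) * Φ.ρ (sqr x) = r := by rw [← map_mul, sqr_mul, hr]
  have h0 : r ≠ 0 := by
    rintro rfl
    exact hx ((map_eq_zero Φ.ρ).1 (by rw [← hr, Complex.ofReal_zero]))
  have h2 : Φ.cj (sqr x) = sqr x ↔ (Φ.ρ (sqr x)).im = 0 := by
    rw [← Complex.conj_eq_iff_im, ← Φ.ccj, Φ.ρ.injective.eq_iff]
  have h3 := congrArg Complex.re h1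
  have h4 := congrArg Complex.im h1
  rw [Complex.mul_re, Complex.ofReal_re] at h3
  rw [Complex.mul_im, Complex.ofReal_im] at h4
  unfold kch
  by_cases h : (Φ.ρ (sqr x)).im = 0
  · rw [if_pos (h2.2 h), if_neg]
    rw [h] at h3
    nlinarith [mul_self_nonneg (Φ.ρ (sqr x)).re]
  · rw [if_neg (fun e => h (h2.1 e)), if_pos]
    have h5 : (Φ.ρ (sqr x)).re = 0 := by
      refine mul_right_cancel₀ h ?_
      linarith
    rw [h5] at h3
    nlinarith [mul_self_pos.2 h]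

/-- the cocycle attached to an element -/
noncomputable def co (Φ : Frm) (n : ℕ) (a : Om) (h : Ga) : Co n := fun k =>
  kch a ((Φ.fr 2 ^ k.val)⁻¹ * h * Φ.fr 2 ^ (k - kap n h).val)

section

variable (hK : SKUM) (hA : Ax0) (hQ : SKQ) {Φ : Frm} (hV : AxV Φ) {n : ℕ}
include hA hV

theorem ksec (k : ZMod (2 ^ n)) : kap n (Φ.fr 2 ^ k.val) = k := by
  rw [kpow hA, hV.kf1, mul_one, ZMod.natCast_zmod_val]

include hQ

theorem mem (h : Ga) (k : ZMod (2 ^ n)) :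
    (Φ.fr 2 ^ k.val)⁻¹ * h * Φ.fr 2 ^ (k - kap n h).val ∈ (kQ n).fixingSubgroup := by
  rw [hQ.mem, hA.kmul, hA.kmul, kinv hA, ksec hA hV, ksec hA hV]
  ring

include hK

theorem coc (a : kQ n) (h h' : Ga) (k : ZMod (2 ^ n)) :
    co Φ n a (h * h') k = co Φ n a h k + co Φ n a h' (k - kap n h) := by
  unfold co
  rw [← hK.mul _ _ _ (mem hA hQ hV h k a) (mem hA hQ hV h' _ a), hA.kmul, sub_sub]
  congr 1
  group

omit hV hK in
theorem opH : Op (kQ n).fixingSubgroup := by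
  obtain ⟨U, hU, h⟩ := hA.kop n
  have hle : U ≤ (kQ n).fixingSubgroup := fun u hu => (hQ.mem n u).2 (h u hu)
  refine ⟨⟨fun x hx g => ?_⟩, Subgroup.isOpen_mono hle hU.2.1, fun g => (hU.2.2 g).imp
    fun k hk => hle hk⟩
  rw [hQ.mem] at hx ⊢
  rw [hA.kmul, hA.kmul, kinv hA, hx]
  ring

theorem inv (a : kQ n) : ∃ U, Op U ∧ ∀ h, ∀ u ∈ U, co Φ n a (h * u) = co Φ n a h := by
  obtain ⟨U, hU, hle, h⟩ := hK.opn (kQ n) a (opH hA hQ) a.2
  refine ⟨U, hU, fun g u hu => funext fun k => ?_⟩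
  rw [coc hK hA hQ hV, add_eq_left]
  unfold co
  rw [(hQ.mem n u).1 (hle hu), sub_zero]
  exact h _ u hu

theorem fix (γ : kQ n ≃ₐ[ℚ] kQ n)
    (hγ : ∀ (h : Ga) (x : kQ n), h x = ((γ ^ (kap n h).val) x : kQ n)) (a : Un (kQ n)) {h : Ga}
    (hh : kap n h = 0) (k : ZMod (2 ^ n)) :
    co Φ n a.val h k = kch ((γ ^ k.val • a).val : kQ n) h := by
  have e : (Φ.fr 2 ^ k.val) (a.val : Om) = ((γ ^ k.val • a).val : kQ n) := by
    rw [hγ, ksec hA hV]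
    rfl
  unfold co
  rw [hh, sub_zero, hK.cnj _ _ _ (by rw [e]; exact (hQ.mem n h).2 hh _), e]

end

theorem layer (hC : SCY) (hD : SDEC) (hL : SLIFT) (hK : SKUM) (hA : Ax0) (hQ : SKQ) (hT : SDT2)
    {Φ : Frm} (hV : AxV Φ) (n : ℕ) : ∃ (D : Dat n) (f : ℕ → Ga → Co n),
    (∀ l h h' k, Gd n l → f l (h * h') k = f l h k + f l h' (k - kap n h)) ∧
    (∀ l, Gd n l → ∃ U, Op U ∧ ∀ h, ∀ u ∈ U, f l (h * u) = f l h) ∧
    (∀ l l', Gd n l → l'.Prime → f l (Φ.sg l') = if l' = l then Pi.single 0 1 else 0) ∧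
    (∀ l, Gd n l → f l (Φ.fr 2) = 0) ∧
    (∀ l q k, Gd n l → Gd n q → (q = l → k ≠ 0) → f l (Φ.fr q) k = D.rr q l k) ∧
    (∀ l, Gd n l → f l Φ.cj = D.cc l) ∧
    ∀ l k k', Gd n l → f l Φ.f2 k = f l Φ.f2 k' := by
  classical
  obtain ⟨θ, γ, -, hcy, hγ⟩ := hQ.cy n
  have hord : orderOf γ = 2 ^ n := (hC.gal _ n θ γ hcy).2.2.1
  have g0 : ∀ {l}, Gd n l → Gd 0 l := fun h => ⟨h.1, h.2.1, Nat.zero_le _⟩
  -- the primes below the primes of the frame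
  have hw : ∀ l, Gd 0 l → ∃ w : Pr (kQ n) 2, Ov (kQ n) (Φ.Q l) w.1 ∧
      (l : 𝓞 (kQ n)) ∈ w.1.asIdeal := by
    intro l hl
    obtain ⟨w, hw⟩ := hL.und (kQ n) (Φ.Q l) (Φ.mx l hl.1).1
    have h1 : (l : 𝓞 (kQ n)) ∈ w.asIdeal := (hw _).2 (by rw [map_natCast]; exact (Φ.mx l hl.1).2)
    exact ⟨⟨w, fun h2 => hl.2.1 (prime_eq w Nat.prime_two hl.1 h2 h1)⟩, hw, h1⟩
  choose w hw1 hw2 using hw
  have hres : ∀ l (hl : Gd n l), Ideal.absNorm (w l (g0 hl)).1.asIdeal = l ∧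
      ∃ ψ : 𝓞 (kQ n) →+* ZMod l, ∀ x, x ∈ (w l (g0 hl)).1.asIdeal ↔ ψ x = 0 := by
    intro l hl
    refine res _ l hl.1 (hw2 l _) fun x => (hD.dec _ n θ γ hcy l _ (g0 hl) (hw2 l _)).2.2.2 x ?_
    have : γ ^ 2 ^ lev l = 1 := orderOf_dvd_iff_pow_eq_one.1 (hord ▸ pow_dvd_pow 2 hl.2.2)
    rw [this, one_smul, sub_self]
    exact zero_mem _
  choose ψ' hψ' using fun l hl => (hres l hl).2
  let ψ : ∀ l : ℕ, 𝓞 (kQ n) → ZMod l := fun l => if hl : Gd n l then ψ' l hl else 0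
  have hψ : ∀ l (hl : Gd n l) x, ψ l x = ψ' l hl x := fun l hl x => by
    simp only [ψ, dif_pos hl]
  have hψw : ∀ l (hl : Gd n l) x, x ∈ (w l (g0 hl)).1.asIdeal ↔ ψ l x = 0 := fun l hl x => by
    rw [hψ l hl, hψ']
  have hre : ComplexEmbedding.IsReal (Φ.ρ.comp (algebraMap (kQ n) Om)) := by
    rw [ComplexEmbedding.isReal_iff]
    ext x
    rw [ComplexEmbedding.conjugate_coe_eq, RingHom.comp_apply, ← Φ.ccj]
    exact congrArg Φ.ρ ((hQ.mem n _).2 (hV.kcj n) x)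
  obtain ⟨η, h, π, α, hη, hs1, hs2, hodd, H⟩ := hT (kQ n) n θ γ hre.embedding ψ hcy
    fun l hl => ⟨ψ' l hl, hψ l hl⟩
  let D : Dat n :=
    { F := kQ n, θ := θ, γ := γ, cy := hcy, η := η, unit := hη, sgn := ⟨_, hs1, hs2⟩, h := h
      odd := hodd, φ := ψ, π := π
      hom := fun l hl => ⟨ψ' l hl, hψ l hl, by
        rw [(H l hl).1]
        congr 1
        refine Eq.trans ?_ (Ideal.span_eq _)
        congr 1
        ext y
        rw [Set.mem_ofPred_eq, hψ l hl]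
        rfl⟩
      pos := fun l hl => (H l hl).2.1 }
  -- parity of the orders
  have par : ∀ l l' (hl' : Gd 0 l') (k : ZMod (2 ^ n)), Gd n l → (l' = l → k ≠ 0) →
      Even (ord (w l' hl').1 (γ ^ k.val • α l)) := by
    intro l l' hl' k hl hne
    rw [← Int.not_odd_iff_even]
    intro h1
    have e1 := NT2.ord_smul (kQ n) _ (γ ^ k.val) ((γ ^ k.val)⁻¹ • (w l' hl').1) (α l)
    rw [smul_inv_smul] at e1
    rw [e1] at h1
    have h2 := ((H l hl).2.2.2.1 ((γ ^ k.val)⁻¹ • w l' hl')).1 h1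
    have h3 : (γ ^ k.val)⁻¹ • (w l' hl').1 = (w l (g0 hl)).1 :=
      HeightOneSpectrum.ext (Ideal.ext fun x => (h2 x).trans (hψw l hl x).symm)
    have h4 := hw2 l (g0 hl)
    rw [← h3, mem_smul_iff, smul_natCast] at h4
    obtain rfl := prime_eq _ hl.1 hl'.1 h4 (hw2 l' hl')
    rw [inv_smul_eq_iff] at h3
    have h5 := ((hD.dec _ n θ γ hcy l' _ hl' (hw2 l' hl')).1 k.val).1 h3.symm
    rw [min_eq_right hl.2.2] at h5
    exact hne rfl ((ZMod.val_eq_zero k).1 (Nat.eq_zero_of_dvd_of_lt h5 (ZMod.val_lt k)))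
  have lne : ∀ l, Gd 0 l → (l : kQ n) ≠ 0 := fun l hl => Nat.cast_ne_zero.2 hl.1.ne_zero
  have ordl : ∀ l (hl : Gd 0 l), ord (w l hl).1 (Un.mk _ (lne l hl)) = 1 := fun l hl =>
    (hD.dec _ n θ γ hcy l _ hl (hw2 l hl)).2.2.1 _ rfl
  have cne : ∀ y : Un (kQ n), (y.val : Om) ≠ 0 := fun y e => y.val_ne (Subtype.ext e)
  obtain ⟨m2, t2⟩ := Φ.mx 2 Nat.prime_two
  rw [Nat.cast_ofNat] at t2
  obtain ⟨-, -, g3, g4, g5, g6, -, g8, -⟩ := hL.grp _ m2
  have two : ∀ l, Gd n l → ∀ h ∈ (kQ n).fixingSubgroup, In (Φ.Q 2) h →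
      kch ((α l).val : kQ n) h = 0 := fun l hl h h1 h2 =>
    (hK.two (kQ n) _ (α l) h m2 t2 h1).1 (H l hl).2.2.1 h2
  have two' : ∀ l, Gd n l → ∀ h, In (Φ.Q 2) h → co Φ n ((α l).val : kQ n) h = 0 :=
    fun l hl h h2 => funext fun k => two l hl _ (mem hA hQ hV h k)
      (g6 _ _ (g6 _ _ (g6 _ _ (in_pow hL m2 Φ.ifr _) Φ.ifr).2 h2).1 (in_pow hL m2 Φ.ifr _)).1
  refine ⟨D, fun l => co Φ n ((α l).val : kQ n), fun l h h' k _ => coc hK hA hQ hV _ h h' k,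
    fun l _ => inv hK hA hQ hV _, fun l l' hl hl' => ?_, fun l hl => two' l hl _ Φ.ifr,
    fun l q k hl hq hne => ?_, fun l hl => funext fun k => ?_, fun l k k' hl => ?_⟩
  · by_cases h2 : l' = 2
    · subst h2
      rw [if_neg hl.2.1.symm]
      exact two' l hl _ (Φ.isg 2 hl')
    have hl0 : Gd 0 l' := ⟨hl', h2, Nat.zero_le _⟩
    have hk := hV.ksg n l' hl'
    have hm := (hQ.mem n _).2 hk
    have hz : ∀ k : ZMod (2 ^ n), (l' = l → k ≠ 0) →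
        co Φ n ((α l).val : kQ n) (Φ.sg l') k = 0 := fun k hne => by
      rw [fix hK hA hQ hV γ hγ _ hk]
      exact hK.unr (kQ n) _ (w l' hl0) _ _ (Φ.mx l' hl').1 (hw1 l' hl0) (par l l' hl0 k hl hne) hm
        (Φ.isg l' hl')
    funext k
    beta_reduce
    split_ifs with h3
    · by_cases hk0 : k = 0
      · subst h3 hk0
        rw [Pi.single_eq_same, fix hK hA hQ hV γ hγ _ hk, ZMod.val_zero, pow_zero, one_smul]
        have h4 : Even (ord (w l' hl0).1 (α l' - Un.mk _ (lne l' hl0))) := by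
          rw [map_sub, ordl]
          exact (((H l' hl).2.2.2.1 _).2 (hψw l' hl)).sub_odd odd_one
        have h5 := hK.unr (kQ n) _ (w l' hl0) _ _ (Φ.mx l' hl').1 (hw1 l' hl0) h4 hm (Φ.isg l' hl')
        have h6 := hK.mul' _ _ (Φ.sg l') (cne (α l' - Un.mk _ (lne l' hl0)))
          (cne (Un.mk _ (lne l' hl0))) (hm _) (hm _)
        have h7 := Φ.ram l' hl0
        rw [h5, zero_add, ← MulMemClass.coe_mul, ← Un.val_add, sub_add_cancel] at h6
        rw [h6, ← h7, Un.val_mk, chi, Int.cast_natCast]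
        rfl
      · rw [Pi.single_eq_of_ne hk0]
        exact hz k fun _ => hk0
    · exact hz k fun e => absurd e h3
  · have hk : kap n (Φ.fr q) = 0 := by
      obtain ⟨o, -, e⟩ := hV.kfr n q (g0 hq)
      rw [e, ZMod.natCast_eq_zero_iff]
      exact (pow_dvd_pow 2 hq.2.2).mul_right _
    have hm := (hQ.mem n _).2 hk
    obtain ⟨m, hm2⟩ := par l q (g0 hq) k hl hne
    set y : Un (kQ n) := m • Un.mk _ (lne q (g0 hq)) with hy
    have h1 : ord (w q (g0 hq)).1 (γ ^ k.val • α l - 2 • y) = 0 := by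
      rw [map_sub, map_nsmul, hy, map_zsmul, ordl, hm2, smul_eq_mul, mul_one, two_nsmul, sub_self]
    have h2 := (H l hl).2.2.2.2.2 q k.val (w q (g0 hq)) y hq (hψw q hq) (fun e h3 => hne e (by
      have h4 := orderOf_dvd_iff_pow_eq_one.2 h3
      rw [hord] at h4
      exact (ZMod.val_eq_zero k).1 (Nat.eq_zero_of_dvd_of_lt h4 (ZMod.val_lt k)))) h1
    have h3 := hK.frb (kQ n) _ (w q (g0 hq)) _ (Φ.fr q) (Φ.mx q hq.1).1 (hw1 q _) h1 hm
      (by rw [(hres q hq).1]; exact Φ.ffr q (g0 hq))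
    have h4 := hK.mul' _ _ (Φ.fr q) (cne (γ ^ k.val • α l - 2 • y)) (cne (2 • y)) (hm _) (hm _)
    have h5 := (hK.sq ((2 • y).val : kQ n) (y.val : kQ n) (Φ.fr q)
      (by rw [Un.val_nsmul]; rfl) (hm _)).2 (hm _)
    rw [h5, add_zero, ← MulMemClass.coe_mul, ← Un.val_add, sub_add_cancel, h3, h2] at h4
    exact (fix hK hA hQ hV γ hγ _ hk k).trans h4
  · refine (fix hK hA hQ hV γ hγ _ (hV.kcj n) k).trans ?_
    rw [sign Φ _ (hre.embedding (γ ^ k.val • α l).val) (cne _) (hre.coe_embedding_apply _)]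
    exact (H l hl).2.2.2.2.1 k.val
  · have hm := (hQ.mem n _).2 (hV.kf2 n)
    have key : ∀ k, co Φ n ((α l).val : kQ n) Φ.f2 k = kch ((α l).val : kQ n) Φ.f2 := by
      intro k
      have h1 := mem hA hQ hV Φ.f2 k
      have h2 := mul_mem h1 (inv_mem hm)
      have h3 := hK.mul ((α l).val : kQ n) _ Φ.f2 (h2 _) (hm _)
      rw [inv_mul_cancel_right, two l hl _ h2, zero_add] at h3
      · exact h3
      · rw [hV.kf2, sub_zero]
        have := g8 _ _ (g5 _ _ (g3 _ (in_pow hL m2 Φ.ifr k.val)) (g3 _ Φ.ifr)).2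
          (g4 2 _ two_pos Φ.ff2)
        rwa [inv_inv] at this
    exact (key k).trans (key k').symm

end FF

theorem rowFF : OfFF := by
  intro hC hD _ _ hL hK hA hQ hV hT Φ
  choose D f h1 h2 h3 h4 h5 h6 h7 using FF.layer hC hD hL hK hA hQ hT (hV Φ)
  exact ⟨⟨Φ, D, f⟩, rfl, ⟨h1, h2, h3, h4, h5, h6, h7⟩⟩

end Pool.Agent.MP_1246c0_nt.H25
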