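import Pool.Agent.MP_1246c0_nt.H25.SpecR
import Pool.Agent.MP_1246c0_nt.H42.GD

/-! The mean number of closed chains. -/

namespace Pool.Agent.MP_1246c0_nt.H25

open Polynomial Finset Matrix
open Pool.Agent.MP_1246c0_nt.H12
open Pool.Agent.MP_1246c0_nt.H12.GD (card_prod card_swap card_mono card_fib fib_le ker_mul card_fun aff
  dotL idp_comp Ee tri nxt_cast nxt_last arith)

namespace GDO

variable {ι : Type} [Fintype ι] [DecidableEq ι]

/-- the pencil operator as a linear map -/
def ptL (P O : Finset ι) : (ι → F2) →ₗ[F2] ι → F2 where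
  toFun := pto P O
  map_add' := fun y y' => by
    funext l
    simp only [pto, Pi.add_apply, Finset.sum_add_distrib]
    split_ifs <;> ring
  map_smul' := fun c y => by
    funext l
    simp only [pto, Pi.smul_apply, smul_eq_mul, RingHom.id_apply, ← Finset.mul_sum]
    split_ifs <;> ring

omit [Fintype ι] in
theorem pt_pt {B P O : Finset ι} (ho : Oa B P O) (y : ι → F2) (l : ι)
    (hl : l ∈ P) : pto P O (pto P O y) l = y l := by
  have h1 : ∑ l' ∈ O, pto P O y l' = ∑ l' ∈ O, y l' + O.card * ∑ l' ∈ O, y l' := by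
    rw [← nsmul_eq_mul, ← Finset.sum_const, ← Finset.sum_add_distrib]
    exact Finset.sum_congr rfl fun l' h => by simp [pto, ho.sub h]
  have h2 : (2 : F2) = 0 := rfl
  have h3 : (O.card : F2) = 0 := (ZMod.natCast_eq_zero_iff_even).2 ho.ev
  rw [pto, if_pos hl, h1, pto, if_pos hl, h3]
  linear_combination (∑ l' ∈ O, y l') * h2

/-- the conditions on the next member of a chain -/
def nx (S : Matrix ι ι F2) (e : ι → F2) (B P O : Finset ι) {j : ℕ}
    (y : Fin j → ι → F2) : (ι → F2) →ₗ[F2] (Unit ⊕ {l // l ∉ B} ⊕ Fin j) → F2 :=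
  LinearMap.pi (Sum.elim (fun _ => dotL univ e) (Sum.elim
    (fun l => (LinearMap.proj l.1).comp (if l.1 ∈ P then ptL P O else S.mulVecLin))
    fun i => (dotL B (y i)).comp (ptL P O)))

theorem nx_card (S : Matrix ι ι F2) (e : ι → F2) (B P O J : Finset ι) (m z : ℕ)
    (hok : Ok i2 i2 S e B P J false m z) (ho : Oa B P O) {j : ℕ}
    (y : Fin j → ι → F2) (hy : Idp (P ∩ B) y) (t) :
    Nat.card {w // nx S e B P O y w = t} * 2 ^ (1 + Bᶜ.card + j) ≤ 2 ^ Fintype.card ι := by
  have hc : Fintype.card (Unit ⊕ {l // l ∉ B} ⊕ Fin j) = 1 + Bᶜ.card + j := by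
    simp [Fintype.card_subtype_compl, Finset.card_compl, add_assoc]
  rw [← hc]
  refine aff _ (fun lam h => ?_) t
  have hx : ∀ w, lam (.inl ()) * dot univ e w +
      (∑ l : {l // l ∉ B}, lam (.inr (.inl l)) * (if l.1 ∈ P then pto P O w l else (S *ᵥ w) l) +
      ∑ i, lam (.inr (.inr i)) * dot B (y i) (pto P O w)) = 0 := by
    intro w
    refine Eq.trans ?_ (h w)
    rw [Fintype.sum_sum_type, Fintype.sum_sum_type]
    refine congrArg₂ (· + ·) (by simp [nx, dotL])
      (congrArg₂ (· + ·) (Finset.sum_congr rfl fun l _ => ?_) rfl)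
    by_cases hl : l.1 ∈ P <;> simp [nx, hl, ptL]
  set u : ι → F2 := fun l => if h : l ∉ B then lam (.inr (.inl ⟨l, h⟩)) else 0 with hu
  have hs : ∀ g : ι → F2, ∑ l : {l // l ∉ B}, lam (.inr (.inl l)) * g l = ∑ l, u l * g l := by
    intro g
    rw [← Fintype.sum_subtype_add_sum_subtype (fun l => l ∉ B) fun l => u l * g l]
    rw [Finset.sum_eq_zero (s := (univ : Finset {l // ¬l ∉ B})) fun l _ => by
      simp only [hu, dif_neg l.2, zero_mul], add_zero]
    exact Finset.sum_congr rfl fun l _ => by simp only [hu, dif_pos l.2]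
  obtain ⟨h1, h2⟩ := hok.row (fun l => if l ∈ P then 0 else u l) (lam (.inl ()))
    (fun l hl => by simp [hu, hl]) fun l' hB hP => by
      have h0 : pto P O (Pi.single l' 1) = 0 := by
        funext l
        have : ∑ x ∈ O, (Pi.single l' 1 : ι → F2) x = 0 :=
          Finset.sum_eq_zero fun x hx => Pi.single_eq_of_ne (by rintro rfl; exact hP (ho.sub hx)) _
        by_cases hl : l ∈ P
        · have : l ≠ l' := by rintro rfl; exact hP hl
          simp [pto, *]
        · simp [pto, hl]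
      have := hx (Pi.single l' 1)
      rw [hs fun l => if l ∈ P then pto P O (Pi.single l' 1) l else (S *ᵥ Pi.single l' 1) l,
        h0] at this
      refine Eq.trans ?_ this
      simp only [dot, Pi.zero_apply, mul_zero, Finset.sum_const_zero, add_zero, RingHom.id_apply]
      rw [add_comm]
      congr 1
      · simp [Pi.single_apply]
      · exact Finset.sum_congr rfl fun l _ => by split_ifs <;> simp
  have h3 : ∀ l0 ∈ P, u l0 + (if l0 ∈ B then ∑ i, lam (.inr (.inr i)) * y i l0 else 0) = 0 := by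
    intro l0 h0
    have h4 : pto P O (pto P O (Pi.single l0 1)) = Pi.single l0 1 := by
      funext l
      by_cases hl : l ∈ P
      · exact pt_pt ho _ l hl
      · have : l ≠ l0 := by rintro rfl; exact hl h0
        rw [pto, if_neg hl, Pi.single_eq_of_ne this]
    have := hx (pto P O (Pi.single l0 1))
    rw [hs fun l => if l ∈ P then pto P O (pto P O (Pi.single l0 1)) l
      else (S *ᵥ pto P O (Pi.single l0 1)) l, h4, h2, zero_mul, zero_add] at this
    refine Eq.trans ?_ this
    congr 1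
    · rw [Finset.sum_eq_single l0]
      · simp [h0]
      · intro l _ hl
        split_ifs with hP
        · simp [hl]
        · have := congrFun h1 l
          simp only [if_neg hP, Pi.zero_apply] at this
          rw [this, zero_mul]
      · simp
    · split_ifs with hB <;> simp [dot, Pi.single_apply, hB]
  have h5 := hy (fun i => lam (.inr (.inr i))) fun l hl => by
    have := h3 l (Finset.mem_inter.1 hl).1
    have hB := (Finset.mem_inter.1 hl).2
    simpa [hu, hB] using this
  funext c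
  rcases c with _ | l | i
  · exact h2
  · by_cases hP : l.1 ∈ P
    · have := h3 l.1 hP
      simpa [hu, l.2] using this
    · have := congrFun h1 l.1
      simpa [hu, hP, l.2] using this
  · exact congrFun h5 i

theorem cn_init (S : Matrix ι ι F2) (e : ι → F2) (B P O : Finset ι) {j : ℕ}
    (y : Fin (j + 2) → ι → F2) (h : Cno S e B P O y) :
    Cno S e B P O (Fin.init y) ∧ Ee S B P (Fin.init y (Fin.last j)) :=
  ⟨⟨fun i => h.1 _, fun i l hl => h.2.1 i.castSucc l hl, fun i i' => h.2.2 i.castSucc i'.castSucc⟩,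
    fun l hB hP => by
      have := h.2.1 (Fin.last j) l hB
      simpa [vvo, pto, hP, Fin.init] using this⟩

theorem step (S : Matrix ι ι F2) (e : ι → F2) (B P O J : Finset ι) (m z : ℕ)
    (hok : Ok i2 i2 S e B P J false m z) (ho : Oa B P O) {j : ℕ}
    (q : (Fin (j + 1) → ι → F2) → Prop) (hq : ∀ y, q y → Idp (P ∩ B) y) :
    Nat.card {y : Fin (j + 2) → ι → F2 //
        q (Fin.init y) ∧ Cno S e B P O y ∧ Ee S B P (y (Fin.last _))} * 2 ^ (1 + Bᶜ.card + j) ≤
      Nat.card {y // q y} * 2 ^ Fintype.card ι := by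
  refine card_fib _ q Fin.init (fun y => y (Fin.last _))
    (fun y w => nx S e B P O (fun i => y i.castSucc) w = Sum.elim (fun _ => 0) (Sum.elim
      (fun l : {l // l ∉ B} => if l.1 ∈ P then (S *ᵥ y (Fin.last j)) l else 0) fun i =>
        dot B (y i.castSucc) (S *ᵥ y (Fin.last j)) + dot B (y (Fin.last j)) (vvo S P O y i)))
    _ _ (fun x x' h1 h2 => ?_) (fun y hy => ⟨hy.1, ?_⟩) fun y hy =>
      nx_card S e B P O J m z hok ho _ (idp_comp _ _ _ (Fin.castSucc_injective _) (hq y hy)) _
  · rw [← Fin.snoc_init_self x, ← Fin.snoc_init_self x', h1, h2]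
  · obtain ⟨-, ⟨h1, h2, h3⟩, h4⟩ := hy
    funext c
    rcases c with _ | l | i
    · exact h1 _
    · have := h2 (Fin.last j) l l.2
      by_cases hP : l.1 ∈ P
      · simp only [vvo, Pi.sub_apply, sub_eq_zero, Fin.succ_last] at this
        simpa [nx, hP, ptL, Fin.init] using this
      · simpa [nx, hP] using h4 l l.2 hP
    · have := h3 i.castSucc (Fin.last j)
      rw [vvo, Fin.succ_last] at this
      have h5 := (dotL B (y i.castSucc.castSucc)).map_sub (pto P O (y (Fin.last _)))
        (S *ᵥ y (Fin.last j).castSucc)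
      change dot B (y i.castSucc.castSucc) (pto P O (y (Fin.last _))) =
        dot B (y i.castSucc.castSucc) (S *ᵥ y (Fin.last j).castSucc) +
          dot B (y (Fin.last j).castSucc) (vvo S P O y i.castSucc)
      rw [← this]
      exact (sub_eq_iff_eq_add'.1 h5.symm)

theorem chain (S : Matrix ι ι F2) (e : ι → F2) (B P O J : Finset ι) (m z : ℕ)
    (hok : Ok i2 i2 S e B P J false m z) (ho : Oa B P O) (k : ℕ)
    (R : (Fin (k + 1) → ι → F2) → Prop) (d : ℕ) :
    Nat.card {y : Fin (k + d + 1) → ι → F2 // Idp (P ∩ B) y ∧ Cno S e B P O y ∧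
        (d ≠ 0 → Ee S B P (y (Fin.last _))) ∧ R fun i => y (Fin.castLE (by omega) i)} *
        2 ^ (d * (1 + Bᶜ.card) + (k + d) * (k + d - 1) / 2) ≤
      Nat.card {y // Cno S e B P O y ∧ R y} * 2 ^ (d * Fintype.card ι + k * (k - 1) / 2) := by
  induction d with
  | zero =>
    simp only [zero_mul, zero_add, add_zero]
    exact Nat.mul_le_mul_right _ (card_mono fun y hy => ⟨hy.2.1, hy.2.2.2⟩)
  | succ d ih =>
    have h1 := step S e B P O J m z hok ho (j := k + d) (fun y => Idp (P ∩ B) y ∧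
      Cno S e B P O y ∧ (d ≠ 0 → Ee S B P (y (Fin.last _))) ∧
      R fun i => y (Fin.castLE (by omega) i)) fun y hy => hy.1
    have h2 := card_mono (α := Fin (k + (d + 1) + 1) → ι → F2)
      (p := fun y => Idp (P ∩ B) y ∧ Cno S e B P O y ∧
        (d + 1 ≠ 0 → Ee S B P (y (Fin.last _))) ∧ R fun i => y (Fin.castLE (by omega) i))
      (q := fun y => (Idp (P ∩ B) (Fin.init y) ∧ Cno S e B P O (Fin.init y) ∧
        (d ≠ 0 → Ee S B P (Fin.init y (Fin.last _))) ∧
        R fun i => Fin.init y (Fin.castLE (by omega) i)) ∧ Cno S e B P O y ∧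
        Ee S B P (y (Fin.last _)))
      fun y hy => ⟨⟨idp_comp _ y _ (Fin.castSucc_injective _) hy.1,
        (cn_init S e B P O y hy.2.1).1, fun _ => (cn_init S e B P O y hy.2.1).2, hy.2.2.2⟩,
        hy.2.1, hy.2.2.1 (by omega)⟩
    have e1 : (d + 1) * (1 + Bᶜ.card) + (k + (d + 1)) * (k + (d + 1) - 1) / 2 =
        (1 + Bᶜ.card + (k + d)) + (d * (1 + Bᶜ.card) + (k + d) * (k + d - 1) / 2) := by
      rw [← add_assoc k d 1, tri]; ring
    have e2 : (d + 1) * Fintype.card ι + k * (k - 1) / 2 =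
        (d * Fintype.card ι + k * (k - 1) / 2) + Fintype.card ι := by ring
    rw [e1, e2, pow_add, pow_add _ _ (Fintype.card ι), ← mul_assoc, ← mul_assoc]
    refine (Nat.mul_le_mul_right _ ((Nat.mul_le_mul_right _ h2).trans h1)).trans ?_
    rw [mul_right_comm]
    exact Nat.mul_le_mul_right _ ih

/-- the conditions on the coefficients -/
def gm (B P O : Finset ι) {k f : ℕ} (x : Fin k → ι → F2) (y : Fin f → ι → F2) :
    (Fin f → F2) →ₗ[F2] Fin k → F2 :=
  LinearMap.pi fun i => ((dotL B (x i)).comp (ptL P O)).comp (Fintype.linearCombination F2 y)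

omit [Fintype ι] in
theorem gm_card (B P O : Finset ι) {k f : ℕ} (y : Fin f → ι → F2) (g : Fin k → Fin f)
    (t : Fin k → F2) :
    Nat.card {a // gm B P O (fun i => y (g i)) y a = t} * 2 ^ k ≤
      2 ^ f * Nat.card {a // gm B P O (fun i => y (g i)) (fun i => y (g i)) a = 0} := by
  have h1 := ker_mul (gm B P O (fun i => y (g i)) y).toAddMonoidHom
  have h2 := ker_mul (gm B P O (fun i => y (g i)) fun i => y (g i)).toAddMonoidHom
  rw [card_fun, Fintype.card_fin] at h1 h2
  have h3 : (gm B P O (fun i => y (g i)) fun i => y (g i)).toAddMonoidHom.range ≤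
      (gm B P O (fun i => y (g i)) y).toAddMonoidHom.range := by
    rintro _ ⟨a, rfl⟩
    have : Fintype.linearCombination F2 (fun i => y (g i)) a ∈ Submodule.span F2 (Set.range y) := by
      rw [Fintype.linearCombination_apply]
      exact Submodule.sum_mem _ fun i _ => Submodule.smul_mem _ _ (Submodule.subset_span ⟨_, rfl⟩)
    rw [← Fintype.range_linearCombination] at this
    obtain ⟨a', h⟩ := this
    exact ⟨a', funext fun i => congrArg ((dotL B (y (g i))).comp (ptL P O)) h⟩
  have h4 := AddSubgroup.card_le_of_le h3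
  have h5 := fib_le (gm B P O (fun i => y (g i)) y).toAddMonoidHom t
  rw [← h1, ← h2]
  calc _ ≤ _ := Nat.mul_le_mul h5 (Nat.mul_le_mul_left _ h4)
    _ = _ := by
      rw [mul_comm (Nat.card (gm B P O (fun i => y (g i)) fun i => y (g i)).toAddMonoidHom.ker),
        ← mul_assoc]
      rfl

theorem short (hch : SCHO) (S : Matrix ι ι F2) (e : ι → F2) (B P O J : Finset ι)
    (m z k : ℕ) (hok : Ok i2 i2 S e B P J false m z) (ho : Oa B P O)
    (hm : 4 * (k + 1) * (k + z + 3) ≤ m) :
    (∑ a : Fin (k + 1) → F2, Nat.card {y // Cno S e B P O y ∧ gm B P O y y a = 0}) *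
      2 ^ (k + 1 + Bᶜ.card * k + k * (k - 1) / 2) ≤ 6 * 2 ^ ((k + 1) * Fintype.card ι) := by
  have h0 := hch ι S e B P O J m z k ∅ (fun _ => 1) 0 0 hok ho hm (by simp) rfl
  have h1 : ∀ a : Fin (k + 1) → F2, a ≠ 0 → Nat.card {y // Cno S e B P O y ∧ gm B P O y y a = 0} *
      2 ^ (k + 1 + Bᶜ.card * k + k * (k - 1) / 2) * 2 ^ k ≤ 2 * 2 ^ ((k + 1) * Fintype.card ι) := by
    intro a ha
    obtain ⟨i0, hi⟩ := Function.ne_iff.1 ha
    have h2 : ∀ x : F2, x ≠ 0 → x = 1 := by decide
    have := hch ι S e B P O J m z k (univ.erase i0) a i0 0 hok ho hm (by simp) (h2 _ hi)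
    rw [Finset.card_erase_of_mem (mem_univ _), card_univ, Fintype.card_fin, Nat.add_sub_cancel,
      pow_add, ← mul_assoc] at this
    refine le_trans (Nat.mul_le_mul_right _ (Nat.mul_le_mul_right _
      (card_mono fun y hy => ⟨hy.1, fun i _ => ?_⟩))) this
    exact congrFun hy.2 i
  rw [Finset.sum_mul, ← Finset.add_sum_erase _ _ (mem_univ 0)]
  have h2 := Finset.sum_le_card_nsmul _ _ _ fun a (ha : a ∈ univ.erase 0) =>
    h1 a (Finset.ne_of_mem_erase ha)
  rw [← Finset.sum_mul, smul_eq_mul] at h2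
  have h3 : (univ.erase (0 : Fin (k + 1) → F2)).card ≤ 2 * 2 ^ k := by
    refine Finset.card_erase_le.trans ?_
    simp [pow_succ']
  have h4 := h2.trans (Nat.mul_le_mul_right _ h3)
  rw [mul_right_comm] at h4
  have h5 := Nat.le_of_mul_le_mul_right h4 (by positivity)
  have h6 := (Nat.mul_le_mul_right _ (card_mono (α := Fin (k + 1) → ι → F2)
    (p := fun y => Cno S e B P O y ∧ gm B P O y y 0 = 0) fun y hy => ⟨hy.1, by simp⟩)).trans h0
  simp only [Finset.card_empty, add_zero] at h6
  omega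

/-- the conditions that do not involve the random part -/
def Good (S : Matrix ι ι F2) (e : ι → F2) (B P O : Finset ι) {f : ℕ} (y : Fin f → ι → F2)
    (a : Fin f → F2) : Prop :=
  Idp (P ∩ B) y ∧ (∀ j, dot univ e (y j) = 0) ∧
    (∀ j l, l ∉ B → (pto P O (nxt y a j) - S *ᵥ y j) l = 0) ∧
    ∀ i j, dot B (y i) (pto P O (nxt y a j) - S *ᵥ y j) =
      dot B (y j) (pto P O (nxt y a i) - S *ᵥ y i)

theorem good_a (S : Matrix ι ι F2) (e : ι → F2) (B P O : Finset ι) (k d : ℕ)
    (y : Fin (k + (d + 1) + 1) → ι → F2) :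
    Nat.card {a // Good S e B P O y a} * 2 ^ (k + 1) ≤ 2 ^ (k + (d + 1) + 1) *
      Nat.card {a : Fin (k + 1) → F2 // Idp (P ∩ B) y ∧ Cno S e B P O y ∧
        (d + 1 ≠ 0 → Ee S B P (y (Fin.last _))) ∧
        gm B P O (fun i : Fin (k + 1) => y (Fin.castLE (by omega) i))
          (fun i => y (Fin.castLE (by omega) i)) a = 0} := by
  by_cases h : ∃ a, Good S e B P O y a
  swap
  · have : IsEmpty {a // Good S e B P O y a} := ⟨fun a => h ⟨a.1, a.2⟩⟩
    simp
  obtain ⟨a0, h1, h2, h3, h4⟩ := h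
  have hc : Cno S e B P O y := ⟨h2, fun j l hl => by
    simpa only [nxt_cast, vvo] using h3 j.castSucc l hl, fun i j => by
    simpa only [nxt_cast, vvo] using h4 i.castSucc j.castSucc⟩
  have he : Ee S B P (y (Fin.last _)) := fun l hB hP => by
    simpa [pto, hP] using h3 (Fin.last _) l hB
  refine le_trans (Nat.mul_le_mul_right _ (card_mono fun a ha => ?_))
    ((gm_card B P O y (Fin.castLE (by omega : k + 1 ≤ k + (d + 1) + 1)) fun i =>
      dot B (y (Fin.castLE (by omega) i)) (S *ᵥ y (Fin.last _)) +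
      dot B (y (Fin.last _)) (vvo S P O y (Fin.castLE (by omega) i))).trans
      (Nat.mul_le_mul_left _ (card_mono fun a ha => ⟨h1, hc, fun _ => he, ha⟩)))
  funext i
  have := ha.2.2.2 (Fin.castLE (by omega : k + 1 ≤ k + (d + 1)) i).castSucc (Fin.last _)
  rw [nxt_cast, nxt_last] at this
  have h5 := (dotL B (y (Fin.castLE (by omega) i))).map_sub (pto P O (∑ i, a i • y i))
    (S *ᵥ y (Fin.last _))
  exact sub_eq_iff_eq_add'.1 (h5.symm.trans this)

theorem good_card (hch : SCHO) (S : Matrix ι ι F2) (e : ι → F2) (B P O J : Finset ι)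
    (m z k d : ℕ) (hok : Ok i2 i2 S e B P J false m z) (ho : Oa B P O)
    (hm : 4 * (k + 1) * (k + z + 3) ≤ m) :
    Nat.card {q : (Fin (k + (d + 1) + 1) → ι → F2) × (Fin (k + (d + 1) + 1) → F2) //
        Good S e B P O q.1 q.2} *
      2 ^ ((k + (d + 1) + 1) * (k + (d + 1) + 1 - 1) / 2 + k) ≤
      2 ^ (z + 1 + (k + (d + 1) + 1) + (k + (d + 1) + 1) * B.card) := by
  rw [card_prod fun y a => Good S e B P O y a]
  have h1 := Finset.sum_le_sum fun y (_ : y ∈ univ) => good_a S e B P O k d y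
  rw [← Finset.sum_mul, ← Finset.mul_sum,
    card_swap (α := Fin (k + (d + 1) + 1) → ι → F2) (β := Fin (k + 1) → F2)] at h1
  have h2 := Finset.sum_le_sum fun (a : Fin (k + 1) → F2) (_ : a ∈ univ) =>
    chain S e B P O J m z hok ho k (fun x => gm B P O x x a = 0) (d + 1)
  rw [← Finset.sum_mul, ← Finset.sum_mul] at h2
  have h3 := short hch S e B P O J m z k hok ho hm
  obtain ⟨w, hw⟩ := Nat.exists_eq_add_of_le hok.sml
  have hn : Fintype.card ι = B.card + Bᶜ.card := (Finset.card_add_card_compl B).symm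
  rw [hn] at h2 h3
  rw [tri, hw]
  exact arith _ _ _ _ _ _ _ _ _ _ h1 h2 h3

end GDO

open GDO in
theorem rowGDO : OfGDO := by
  intro hav _ hhp hch ι _ _ S e B P O m z k f hok ho hm hf
  obtain ⟨d, rfl⟩ : ∃ d, f = k + (d + 1) + 1 := ⟨f - k - 2, by omega⟩
  have h1 := good_card hch S e B P O _ m z k d hok ho hm
  generalize k + (d + 1) + 1 = f at h1 ⊢
  unfold GTo
  rw [hav.cnt _ _ _ fun H (q : (Fin f → ι → F2) × (Fin f → F2)) => Idp (P ∩ B) q.1 ∧
    (∀ j, dot univ e (q.1 j) = 0) ∧ ∀ j, (S + H) *ᵥ q.1 j = pto P O (nxt q.1 q.2 j)]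
  have h2 : ∀ q : (Fin f → ι → F2) × (Fin f → F2), Ex (Hs i2 B (P ∩ B)) (fun H =>
      ind (Idp (P ∩ B) q.1 ∧ (∀ j, dot univ e (q.1 j) = 0) ∧
        ∀ j, (S + H) *ᵥ q.1 j = pto P O (nxt q.1 q.2 j))) ≤
      ind (Good S e B P O q.1 q.2) * (2 ^ (f * (f - 1) / 2) / 2 ^ (f * B.card)) := by
    rintro ⟨y, a⟩
    by_cases h : Idp (P ∩ B) y ∧ (∀ j, dot univ e (y j) = 0) ∧
      ∀ j l, l ∉ B → (pto P O (nxt y a j) - S *ᵥ y j) l = 0
    · refine le_trans (hav.mono _ _ _ _ fun H _ => ?_) ((hhp.one ι B (P ∩ B) f y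
        (fun j => pto P O (nxt y a j) - S *ᵥ y j) Finset.inter_subset_right h.1).trans ?_)
      · unfold ind
        split_ifs with c1 c2 <;> try norm_num
        exact c2 fun i l _ => by rw [← c1.2.2 i, Matrix.add_mulVec]; simp
      · rw [mul_div_assoc]
        refine mul_le_mul_of_nonneg_right ?_ (by positivity)
        unfold ind
        split_ifs with c1 c2 <;> try norm_num
        exact c2 ⟨h.1, h.2.1, h.2.2, c1⟩
    · refine le_trans (hav.mono _ _ _ (fun _ => 0) fun H hH => ?_) ?_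
      · unfold ind
        split_ifs with c1
        · refine absurd ⟨c1.1, c1.2.1, fun j l hl => ?_⟩ h
          rw [← c1.2.2 j, Matrix.add_mulVec]
          simp only [add_sub_cancel_left, Matrix.mulVec, dotProduct]
          exact Finset.sum_eq_zero fun l' _ => by rw [hH.2.2 l l' fun c => hl c.1, zero_mul]
        · exact le_rfl
      · rw [hav.const]
        unfold ind
        split_ifs <;> positivity
  refine (Finset.sum_le_sum fun q _ => h2 q).trans ?_
  rw [← Finset.sum_mul]
  have h3 : ∑ q : (Fin f → ι → F2) × (Fin f → F2), ind (Good S e B P O q.1 q.2) =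
      Nat.card {q : (Fin f → ι → F2) × (Fin f → F2) // Good S e B P O q.1 q.2} := by
    classical
    rw [Nat.card_eq_fintype_card, Fintype.card_subtype, Finset.card_filter]
    simp only [ind, Nat.cast_sum, Nat.cast_ite, Nat.cast_one, Nat.cast_zero]
  rw [h3, ← mul_div_assoc, div_le_div_iff₀ (by positivity) (by positivity), mul_assoc, ← pow_add,
    ← pow_add]
  exact_mod_cast h1

end Pool.Agent.MP_1246c0_nt.H25
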