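import Pool.Agent.MP_1246c0_nt.H25.SpecG
import Pool.Agent.MP_1246c0_nt.H57.SH1
import Pool.Agent.MP_db5b97_nt.H85.NT

/-! Governing cocycles: existence and equidistribution. -/

namespace Pool.Agent.MP_1246c0_nt.H25

open NumberField Polynomial Finset Matrix Function Pool.Agent.MP_db5b97_nt.H85
open Pool.Agent.MP_1246c0_nt.H12

namespace GOV

section Tr

variable {X : Type} [AddCommGroup X] {π : Ga → X}

/-- the transfer -/
noncomputable def tr (π : Ga → X) (s : X → Ga) (h : Ga) (ξ : X) : Ga := (s ξ)⁻¹ * h * s (ξ - π h)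

theorem tr_zero (s : X → Ga) {h : Ga} (h0 : π h = 0) (ξ : X) :
    tr π s h ξ = (s ξ)⁻¹ * h * s ξ := by rw [tr, h0, sub_zero]

variable (hπ : ∀ h h', π (h * h') = π h + π h')
include hπ

theorem pi_one : π 1 = 0 := by
  have := hπ 1 1
  rw [mul_one] at this
  exact left_eq_add.1 this

theorem pi_inv (h : Ga) : π h⁻¹ = -π h := by
  have := hπ h⁻¹ h
  rw [inv_mul_cancel, pi_one hπ] at this
  exact eq_neg_of_add_eq_zero_left this.symm

theorem pi_cnj (g h : Ga) : π (g⁻¹ * h * g) = π h := by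
  rw [hπ, hπ, pi_inv hπ]; abel

theorem tr_mul (s : X → Ga) (h h' : Ga) (ξ : X) :
    tr π s (h * h') ξ = tr π s h ξ * tr π s h' (ξ - π h) := by
  rw [tr, tr, tr, hπ, sub_add_eq_sub_sub]; group

theorem tr_pi {s : X → Ga} (hs : ∀ ξ, π (s ξ) = ξ) (h : Ga) (ξ : X) : π (tr π s h ξ) = 0 := by
  rw [tr, hπ, hπ, pi_inv hπ, hs, hs]; abel

end Tr

theorem pix_mul {I : Type} (h0 : Ax0) (n : ℕ) (z : I → ℕ) (h h' : Ga) :
    pix n z (h * h') = pix n z h + pix n z h' := by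
  refine Prod.ext (h0.kmul n h h') (funext fun i => h0.cmul _ h h')

theorem cop {R : Type} [CommRing R] {J : Ideal R} (hJ : J ≠ ⊤) {a b : ℕ} (h : a.Coprime b)
    (ha : (a : R) ∈ J) (hb : (b : R) ∈ J) : False := by
  obtain ⟨x, y, e⟩ := (Nat.isCoprime_iff_coprime.2 h).map (Int.castRingHom R)
  refine hJ ?_
  rw [Ideal.eq_top_iff_one, ← e]
  exact add_mem (Ideal.mul_mem_left _ _ (by simpa using ha))
    (Ideal.mul_mem_left _ _ (by simpa using hb))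

theorem le_absNorm {F : Type} [Field F] [NumberField F] (v : Sp F) {q : ℕ} (hq : q.Prime)
    (h : (q : 𝓞 F) ∈ v.asIdeal) : q ≤ Ideal.absNorm v.asIdeal := by
  refine Nat.le_of_dvd (Nat.pos_of_ne_zero fun h0 => v.ne_bot (Ideal.absNorm_eq_zero_iff.1 h0)) ?_
  by_contra hd
  exact cop v.isPrime.ne_top ((Nat.Prime.coprime_iff_not_dvd hq).2 hd) h (Ideal.absNorm_mem _)

theorem absNorm_ker {F : Type} [Field F] [NumberField F] {q : ℕ} (ψ : 𝓞 F →+* ZMod q) :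
    Ideal.absNorm (RingHom.ker ψ) = q := by
  rw [Ideal.absNorm_apply, Submodule.cardQuot_apply,
    Nat.card_congr (RingHom.quotientKerEquivOfSurjective (ZMod.ringHom_surjective ψ)).toEquiv,
    Nat.card_zmod]

theorem smul_nat (g : Ga) (q : ℕ) : g • (q : OO) = q :=
  map_natCast (MulSemiringAction.toRingHom Ga OO g) q

theorem two_not {F : Type} [Field F] [NumberField F] (v : Sp F) {q : ℕ} (hq : q.Prime) (h2 : q ≠ 2)
    (h : (q : 𝓞 F) ∈ v.asIdeal) : ((2 : ℕ) : 𝓞 F) ∉ v.asIdeal := fun h' =>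
  cop v.isPrime.ne_top ((Nat.coprime_primes hq Nat.prime_two).2 h2) h h'

theorem kch_unr (hL : SLIFT) (hK : SKUM) (Φ : Frm) (E : IntermediateField ℚ Om) [NumberField E]
    {q : ℕ} (hq : q.Prime) (h2 : q ≠ 2) (g : Ga) (hm : g⁻¹ * Φ.sg q * g ∈ E.fixingSubgroup)
    (y : Un E) (hy : ∀ v : Sp E, (q : 𝓞 E) ∈ v.asIdeal →
      (∀ x ∈ v.asIdeal, g • algebraMap (𝓞 E) OO x ∈ Φ.Q q) → Even (ord v y)) :
    kch (y.val : Om) (g⁻¹ * Φ.sg q * g) = 0 := by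
  obtain ⟨Q', hQ', hmem, hin, -⟩ := hL.cnj (Φ.Q q) g (Φ.mx q hq).1
  obtain ⟨v, hv⟩ := hL.und E Q' hQ'
  have hqv : (q : 𝓞 E) ∈ v.asIdeal := by
    rw [hv, map_natCast, hmem, smul_nat]
    exact (Φ.mx q hq).2
  exact hK.unr E Q' ⟨v, two_not v hq h2 hqv⟩ y _ hQ' hv
    (hy v hqv fun x hx => (hmem _).1 ((hv x).1 hx)) hm (hin _ (Φ.isg q hq))

theorem fix {E : IntermediateField ℚ Om} {h : Ga} (hh : h ∈ E.fixingSubgroup) (x : E) :
    h x = x := (IntermediateField.mem_fixingSubgroup_iff E h).1 hh x x.2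

theorem kch_add (hK : SKUM) {E : IntermediateField ℚ Om} {h : Ga} (hh : h ∈ E.fixingSubgroup)
    (x y : Un E) : kch ((x + y).val : Om) h = kch (x.val : Om) h + kch (y.val : Om) h := by
  rw [Un.val_add, IntermediateField.coe_mul]
  exact hK.mul' _ _ h (by simp) (by simp) (fix hh _) (fix hh _)

theorem f2_eq {a b : F2} (h : a + b = 0) : a = b := by
  revert a b; decide

section Main

variable {I : Type} [Fintype I] [DecidableEq I] {Φ : Frm} {n : ℕ} {z : I → ℕ}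

/-- the chosen prime above a split prime -/
structure Wp (Φ : Frm) (n : ℕ) (z : I → ℕ) (p : ℕ) (w : Sp (kE n z)) : Prop where
  ov : Ov (kE n z) (Φ.Q p) w
  ker : ∃ ψ : 𝓞 (kE n z) →+* ZMod p, w.asIdeal = RingHom.ker ψ
  one : ∀ x : Un (kE n z), x.val = p → ord w x = 1
  dec : ∀ h : Ga, (∀ x ∈ w.asIdeal, h • algebraMap (𝓞 (kE n z)) OO x ∈ Φ.Q p) → pix n z h = 0

omit [DecidableEq I] in
theorem Wp.mem {p : ℕ} {w : Sp (kE n z)} (h : Wp Φ n z p w) : (p : 𝓞 (kE n z)) ∈ w.asIdeal := by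
  obtain ⟨ψ, hψ⟩ := h.ker
  rw [hψ, RingHom.mem_ker, map_natCast, ZMod.natCast_self]

omit [DecidableEq I] in
theorem gv (hL : SLIFT) (hK : SKUM) (h1 : Ax1 Φ) (hE : Ef Φ n z) (hz : ∀ i, z i ≠ 0)
    (s : Xi n I → Ga) (hs : ∀ ξ, pix n z (s ξ) = ξ) (hs0 : s 0 = 1) (w : ℕ → Sp (kE n z))
    (α : ℕ → Un (kE n z)) (B : ℕ) (A : Set ℕ) (Q Q' : Finset Ga)
    (hw : ∀ p ∈ A, Spl n z p ∧ B < p ∧ Wp Φ n z p (w p) ∧ ord (w p) (α p) = 1 ∧
      ∀ v, v ≠ w p → B < Ideal.absNorm v.asIdeal → ord v (α p) = 0)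
    (hτ : ∀ p ∈ A, ∀ p' ∈ A, ∀ v, v ≠ w p → v ≠ w p' → ord v (α p) = ord v (α p'))
    (hQ : Q ⊆ Q') (h2 : Φ.sg 2 ∈ Q') (hq : ∀ i q, q.Prime → q ∣ z i → Φ.sg q ∈ Q')
    (φ : ℕ → Ga → Xi n I → F2) (hφ : ∀ p h ξ, φ p h ξ = kch ((α p).val : Om) (tr (pix n z) s h ξ))
    (hc : ∀ p ∈ A, ∀ p' ∈ A, ∀ h ∈ Q', φ p h = φ p' h) : Gv Φ n z Q φ A := by
  have hπ := pix_mul h1.z n z
  have hcoc : ∀ p h h' ξ, φ p (h * h') ξ = φ p h ξ + φ p h' (ξ - pix n z h) := by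
    intro p h h' ξ
    rw [hφ, hφ, hφ, tr_mul hπ]
    exact hK.mul _ _ _ (fix ((hE.mem _).2 (tr_pi hπ hs _ _)) _)
      (fix ((hE.mem _).2 (tr_pi hπ hs _ _)) _)
  have hm : ∀ h g, pix n z h = 0 → g⁻¹ * h * g ∈ (kE n z).fixingSubgroup := fun h g h0 =>
    (hE.mem _).2 ((pi_cnj hπ g h).trans h0)
  have hne : ∀ p ∈ A, ∀ (q : ℕ) (v : Sp (kE n z)), q.Prime → q ≠ p → (q : 𝓞 _) ∈ v.asIdeal →
      v ≠ w p := fun p hp q v hq hqp hv e =>
    cop v.isPrime.ne_top ((Nat.coprime_primes hq (hw p hp).1.1.1).2 hqp) hv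
      (e ▸ (hw p hp).2.2.1.mem)
  refine ⟨fun p _ => hcoc p, fun p _ => ?_, fun p hp => ?_, fun p hp p' hp' hpp => ?_,
    fun p hp p' hp' q hqp hq1 hq2 => ?_, fun p hp p' hp' h hh => hc p hp p' hp' h (hQ hh)⟩
  · obtain ⟨U, hU, hle, hU0⟩ := hK.opn (kE n z) ((α p).val : Om) hE.op (α p).val.2
    refine ⟨U, hU, fun h u hu => funext fun ξ => ?_⟩
    rw [hcoc, hφ p u, tr_zero s ((hE.mem u).1 (hle hu)), hU0 _ u hu, add_zero]
  · obtain ⟨hsp, hB, hW, ho, hoth⟩ := hw p hp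
    have h0 := (hE.spl p hsp).2.1
    funext ξ
    rw [hφ, tr_zero s h0]
    by_cases hξ : ξ = 0
    · rw [hξ, hs0, inv_one, one_mul, mul_one, Pi.single_eq_same]
      have hp0 : (p : kE n z) ≠ 0 := Nat.cast_ne_zero.2 hsp.1.1.ne_zero
      have e1 := hK.unr (kE n z) (Φ.Q p) ⟨w p, two_not _ hsp.1.1 hsp.1.2.1 hW.mem⟩
        (α p + Un.mk _ hp0) (Φ.sg p) (Φ.mx p hsp.1.1).1 hW.ov
        (by rw [map_add, ho, hW.one _ rfl]; decide) ((hE.mem _).2 h0) (Φ.isg p hsp.1.1)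
      rw [kch_add hK ((hE.mem _).2 h0)] at e1
      have e2 := Φ.ram p ⟨hsp.1.1, hsp.1.2.1, Nat.zero_le _⟩
      rw [f2_eq e1, ← e2, chi]
      simp
    · rw [Pi.single_eq_of_ne hξ]
      refine kch_unr hL hK Φ _ hsp.1.1 hsp.1.2.1 _ (hm _ _ h0) _ fun v hv hx => ?_
      rw [hoth v (fun e => hξ ?_) (hB.trans_le (le_absNorm v hsp.1.1 hv))]
      · exact Even.zero
      · rw [← hs ξ]
        exact hW.dec _ (e ▸ hx)
  · obtain ⟨hsp, hB, -⟩ := hw p' hp'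
    have h0 := (hE.spl p' hsp).2.1
    funext ξ
    rw [hφ, tr_zero s h0]
    refine kch_unr hL hK Φ _ hsp.1.1 hsp.1.2.1 _ (hm _ _ h0) _ fun v hv _ => ?_
    rw [(hw p hp).2.2.2.2 v (hne p hp p' v hsp.1.1 hpp.symm hv)
      (hB.trans_le (le_absNorm v hsp.1.1 hv))]
    exact Even.zero
  · by_cases e2 : q = 2
    · exact hc p hp p' hp' _ (e2 ▸ h2)
    by_cases ez : ∃ i, q ∣ z i
    · obtain ⟨i, hi⟩ := ez
      exact hc p hp p' hp' _ (hq i q hqp hi)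
    have h0 : pix n z (Φ.sg q) = 0 := by
      refine Prod.ext (h1.v.ksg n q hqp) (funext fun i => ?_)
      have := h1.v.csg q (z i) ⟨hqp, e2, Nat.zero_le _⟩ (Nat.cast_ne_zero.2 (hz i))
      rw [padicValInt.of_nat, padicValNat.eq_zero_of_not_dvd fun h => ez ⟨i, h⟩] at this
      exact this
    funext ξ
    rw [hφ, hφ, tr_zero s h0]
    refine f2_eq ?_
    rw [← kch_add hK (hm _ _ h0)]
    refine kch_unr hL hK Φ _ hqp e2 _ (hm _ _ h0) _ fun v hv _ => ?_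
    rw [map_add, hτ p hp p' hp' v (hne p hp q v hqp hq1 hv) (hne p' hp' q v hqp hq2 hv)]
    exact ⟨_, rfl⟩

omit [DecidableEq I] in
theorem frob (hR : SRA) (hK : SKUM) (hE : Ef Φ n z) [Normal ℚ (kE n z)] {b : ℕ} (hb : Spl n z b)
    {w : Sp (kE n z)} (hW : Wp Φ n z b w) (ψ : 𝓞 (kE n z) →+* ZMod b)
    (hψ : w.asIdeal = RingHom.ker ψ) (x : Un (kE n z)) (a : 𝓞 (kE n z)) (hx : x.val = a) (g : Ga)
    (h0 : ψ (g.restrictNormal (kE n z) • a) ≠ 0) :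
    kch (x.val : Om) (g⁻¹ * Φ.fr b * g) = qr (ψ (g.restrictNormal (kE n z) • a)) := by
  have hm := (hE.mem _).2 (hE.spl b hb).1
  have e1 : ((g.restrictNormal (kE n z) • x).val : Om) = g x.val :=
    AlgEquiv.restrictNormal_commutes g (kE n z) _
  have e2 : (g.restrictNormal (kE n z) • x).val =
      ((g.restrictNormal (kE n z) • a : 𝓞 (kE n z)) : kE n z) := by
    rw [Un.val_smul, hx]; rfl
  rw [hK.cnj _ g _ (by rw [← e1]; exact fix hm _), ← e1,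
    hK.frb (kE n z) (Φ.Q b) ⟨w, two_not w hb.1.1 hb.1.2.1 hW.mem⟩ _ _ (Φ.mx b hb.1.1).1 hW.ov ?_ hm
      ?_, e2]
  · exact hR.qhom _ w b ψ hb.1.1 hψ _
  · rw [ord_eq_zero_iff, e2, val_eq_one_iff, hψ]
    exact h0
  · rw [hψ, absNorm_ker]
    exact Φ.ffr b ⟨hb.1.1, hb.1.2.1, Nat.zero_le _⟩

end Main

theorem chr {F X : Type} [Field F] [NumberField F] {N b : ℕ} [hb : Fact b.Prime] (h2 : b ≠ 2)
    (e : Fin N → 𝓞 F) (ψ : 𝓞 F →+* ZMod b)
    (hψ : Bijective fun (a : Fin N → ZMod b) (σ : F ≃ₐ[ℚ] F) => ∑ j, a j * ψ (σ • e j))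
    (σ : X → F ≃ₐ[ℚ] F) (hσ : Injective σ) (μ : Finset X) (hμ : μ.Nonempty) :
    Chr e (fun x => ∏ ξ ∈ μ, ((quadraticChar (ZMod b) (ψ (σ ξ • x)) : ℤ) : ℝ)) b := by
  classical
  refine ⟨fun x y => ?_, fun x => ?_, fun x y => ?_, ?_⟩
  · simp only [smul_mul', map_mul, Int.cast_mul, prod_mul_distrib]
  · rw [abs_prod]
    refine prod_le_one (fun _ _ => abs_nonneg _) fun k _ => ?_
    rcases quadraticChar_isQuadratic (ZMod b) (ψ (σ k • x)) with h | h | h <;> rw [h] <;> simp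
  · refine prod_congr rfl fun k _ => ?_
    have : σ k • (x + b * y) = σ k • x + b * σ k • y := by
      rw [smul_add, ← nsmul_eq_mul, ← nsmul_eq_mul, smul_comm]
    rw [this, map_add, map_mul, map_natCast, ZMod.natCast_self, zero_mul, add_zero]
  · let f : ZMod b → ℝ := fun t => ((quadraticChar (ZMod b) t : ℤ) : ℝ)
    have hf : ∑ t, f t = 0 := by
      simp only [f]
      rw [← Int.cast_sum, quadraticChar_sum_zero (by rw [ZMod.ringChar_zmod_n]; exact h2),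
        Int.cast_zero]
    let c : (Fin N → Fin b) → Fin N → ZMod b := fun a j => ((a j : ℕ) : ZMod b)
    have hc : Bijective c := by
      refine (Fintype.bijective_iff_injective_and_card c).2 ⟨fun a a' h => funext fun j => ?_,
        by simp [ZMod.card]⟩
      have h1 := congrFun h j
      simp only [c] at h1
      rw [ZMod.natCast_eq_natCast_iff', Nat.mod_eq_of_lt (a j).2, Nat.mod_eq_of_lt (a' j).2] at h1
      exact Fin.ext h1
    have h1 := (hψ.comp hc).sum_comp fun y : (F ≃ₐ[ℚ] F) → ZMod b => ∏ g ∈ μ.image σ, f (y g)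
    refine Eq.trans (sum_congr rfl fun a _ => ?_) (h1.trans ?_)
    · rw [prod_image fun _ _ _ _ h => hσ h]
      refine prod_congr rfl fun k _ => ?_
      simp only [f, c, Function.comp]
      congr 2
      rw [smul_sum, map_sum]
      refine sum_congr rfl fun j _ => ?_
      rw [smul_comm, natCast_zsmul, nsmul_eq_mul, map_mul, map_natCast]
    · have h3 : ∀ y : (F ≃ₐ[ℚ] F) → ZMod b, ∏ g ∈ μ.image σ, f (y g) =
          ∏ g, if g ∈ μ.image σ then f (y g) else 1 := fun y => by rw [prod_ite_mem, univ_inter]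
      simp_rw [h3]
      rw [← Fintype.piFinset_univ, ← prod_univ_sum (fun _ : F ≃ₐ[ℚ] F => (univ : Finset (ZMod b)))
        fun g t => if g ∈ μ.image σ then f t else 1]
      obtain ⟨k, hk⟩ := hμ
      exact prod_eq_zero (mem_univ (σ k)) (by simp only [mem_image_of_mem σ hk, if_true, hf])

theorem diag (A A' : Finset ℕ) (F G : ℕ → ℕ → ℝ) (M M' Y : ℕ) (hY : 1 ≤ Y)
    (hF : ∀ p b, |F p b| ≤ 1) (hG : ∀ p ∈ A, ∀ b ∈ A', |G p b| ≤ 1)
    (h : ∀ p ∈ A, ∀ b ∈ A', p ≠ b → F p b = G p b) (hA : ∀ p ∈ A, Y < p ∧ p ≤ M)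
    (hA' : ∀ p ∈ A', Y < p ∧ p ≤ M') :
    |∑ p ∈ A, ∑ b ∈ A', F p b| ≤ |∑ p ∈ A, ∑ b ∈ A', G p b| + 2 / Y * M * M' := by
  have hY' : (0 : ℝ) < Y := by exact_mod_cast hY
  have h1 : ∀ p ∈ A, |∑ b ∈ A', (F p b - G p b)| ≤ 2 / Y * M' := by
    intro p hp
    by_cases hp' : p ∈ A'
    · rw [sum_eq_single_of_mem p hp' fun b hb hne => sub_eq_zero.2 (h p hp b hb hne.symm)]
      have h2 : (Y : ℝ) ≤ M' := by exact_mod_cast ((hA' p hp').1.le.trans (hA' p hp').2)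
      calc |F p p - G p p| ≤ |F p p| + |G p p| := abs_sub _ _
        _ ≤ 2 / Y * Y := by
            have := hF p p
            have := hG p hp p hp'
            rw [div_mul_cancel₀ _ hY'.ne']
            linarith
        _ ≤ _ := by gcongr
    · rw [sum_eq_zero fun b hb => sub_eq_zero.2 (h p hp b hb fun e => hp' (e ▸ hb)), abs_zero]
      positivity
  have h2 : (A.card : ℝ) ≤ M := by
    have : A ⊆ Icc 1 M := fun p hp => mem_Icc.2 ⟨by have := (hA p hp).1; omega, (hA p hp).2⟩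
    exact_mod_cast (card_le_card this).trans (by simp)
  have h3 : |∑ p ∈ A, ∑ b ∈ A', (F p b - G p b)| ≤ 2 / Y * M * M' :=
    calc _ ≤ ∑ p ∈ A, |∑ b ∈ A', (F p b - G p b)| := abs_sum_le_sum_abs _ _
      _ ≤ A.card • (2 / Y * M' : ℝ) := sum_le_card_nsmul _ _ _ h1
      _ ≤ M * (2 / Y * M') := by rw [nsmul_eq_mul]; gcongr
      _ = _ := by ring
  simp only [sum_sub_distrib] at h3
  have := abs_sub_abs_le_abs_sub (∑ p ∈ A, ∑ b ∈ A', F p b) (∑ p ∈ A, ∑ b ∈ A', G p b)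
  linarith

theorem numer (N C κ D M M' Y : ℕ) (hN : 1 ≤ N) (hC : 8 * N ≤ C) (hY : 1 ≤ Y)
    (hD : (100 * κ) ^ N + 1 ≤ D) :
    (100 * κ : ℝ) ^ N * (Real.log M' + 2) / (Y : ℝ) ^ (1 / (8 * N) : ℝ) * M * M' + 2 / Y * M * M' ≤
      D * (Real.log M' + 2) / (Y : ℝ) ^ (1 / C : ℝ) * M * M' := by
  have hY' : (1 : ℝ) ≤ Y := by exact_mod_cast hY
  have hN' : (1 : ℝ) ≤ N := by exact_mod_cast hN
  have hC' : (8 * N : ℝ) ≤ C := by exact_mod_cast hC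
  have hD' : (100 * κ : ℝ) ^ N + 1 ≤ D := by exact_mod_cast hD
  have hl := Real.log_natCast_nonneg M'
  have hy : 0 < (Y : ℝ) ^ (1 / C : ℝ) := by positivity
  have h1 : (Y : ℝ) ^ (1 / C : ℝ) ≤ (Y : ℝ) ^ (1 / (8 * N) : ℝ) :=
    Real.rpow_le_rpow_of_exponent_le hY' (one_div_le_one_div_of_le (by positivity) hC')
  have h2 : (Y : ℝ) ^ (1 / C : ℝ) ≤ Y := by
    conv_rhs => rw [← Real.rpow_one Y]
    exact Real.rpow_le_rpow_of_exponent_le hY' (by rw [div_le_one (by linarith)]; linarith)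
  calc _ ≤ (100 * κ : ℝ) ^ N * (Real.log M' + 2) / (Y : ℝ) ^ (1 / C : ℝ) * M * M' +
        (Real.log M' + 2) / (Y : ℝ) ^ (1 / C : ℝ) * M * M' := by
        gcongr
        linarith
    _ = ((100 * κ : ℝ) ^ N + 1) * (Real.log M' + 2) / (Y : ℝ) ^ (1 / C : ℝ) * M * M' := by ring
    _ ≤ _ := by gcongr

theorem abs_sg (x : F2) : |sg x| ≤ 1 := by
  unfold sg; split_ifs <;> simp

theorem expo (C0 N N0 c C : ℕ) (h : N ≤ N0)
    (hC : C = C0 * N0 * (N0 ^ 2 + 1) + N0 * (1 + 2 * c) + (8 + C0) * N0 + 1) :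
    C0 * N * (N ^ 2 + 1) + N * (1 + 2 * c) ≤ C ∧ C0 * N ≤ C ∧ 8 * N ≤ C ∧ (7 + C0) * N + 1 ≤ C := by
  have e1 : C0 * N * (N ^ 2 + 1) ≤ C0 * N0 * (N0 ^ 2 + 1) := by gcongr
  have e2 : N * (1 + 2 * c) ≤ N0 * (1 + 2 * c) := by gcongr
  have e3 : C0 * N ≤ C0 * N0 := by gcongr
  rw [add_mul 8] at hC
  rw [add_mul 7]
  omega

end GOV

open GOV in
theorem rowGOV : OfGOV := by
  intro hQ hR hrect hL hK hA hB hC n c
  obtain ⟨C0, hB⟩ := hB n c
  obtain ⟨C, hCe⟩ : ∃ C, C = C0 * (2 ^ n * 2 ^ c) * ((2 ^ n * 2 ^ c) ^ 2 + 1) +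
    2 ^ n * 2 ^ c * (1 + 2 * c) + (8 + C0) * (2 ^ n * 2 ^ c) + 1 := ⟨_, rfl⟩
  refine ⟨C, by omega, ?_⟩
  intro I _ _ Φ z qz Z Q h1 hP hI hZ hz hz2
  have hE := hA I Φ n z qz h1 hP
  obtain ⟨e, κ, hkit, hκ, hli, hbox, hbij⟩ := hB I Φ z Z h1 hE hI hZ hz
  have hrk := hE.rk
  have hX : Fintype.card (Xi n I) = 2 ^ n * 2 ^ Fintype.card I := by simp [ZMod.card]
  have hN1 : 1 ≤ 2 ^ n * 2 ^ Fintype.card I := Nat.one_le_iff_ne_zero.2 (by positivity)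
  obtain ⟨c1, c2, c3, c4⟩ := expo C0 (2 ^ n * 2 ^ Fintype.card I) _ c C
    (Nat.mul_le_mul_left _ (Nat.pow_le_pow_right two_pos hI)) hCe
  generalize 2 ^ n * 2 ^ Fintype.card I = N at e hkit hli hbox hbij hrk hX hN1 c1 c2 c3 c4
  clear hCe
  have hZ2 : 2 ≤ 2 * Z := by omega
  have hKC : ((2 * Z) ^ C0) ^ N ≤ (2 * Z) ^ C := by
    rw [← pow_mul]; exact Nat.pow_le_pow_right (by omega) c2
  have hπ := pix_mul h1.z n z
  obtain ⟨s, hs, hs0⟩ : ∃ s : Xi n I → Ga, (∀ ξ, pix n z (s ξ) = ξ) ∧ s 0 = 1 := by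
    choose s hs using hE.sur
    refine ⟨update s 0 1, fun ξ => ?_, update_self ..⟩
    by_cases h : ξ = 0
    · rw [h, update_self, pi_one hπ]
    · rw [update_of_ne h, hs]
  have hw : ∀ p, ∃ w, Spl n z p → Wp Φ n z p w := by
    intro p
    by_cases hp : Spl n z p
    · obtain ⟨-, -, w, ψ, a1, a2, a3, a4⟩ := hE.spl p hp
      exact ⟨w.1, fun _ => ⟨a1, ⟨ψ, a2⟩, a3, a4⟩⟩
    · obtain ⟨w, -⟩ := hL.und (kE n z) _ (Φ.mx 2 Nat.prime_two).1
      exact ⟨w, fun h => absurd h hp⟩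
  choose w hw using hw
  obtain ⟨T, τ, a, α, hT, hα, hτ⟩ := hC (kE n z) N ((2 * Z) ^ C0) e
    {p | Spl n z p ∧ ((2 * Z) ^ C0) ^ N < p} w hrk (Nat.one_le_pow _ _ (by omega)) hli
    (fun L x hx => by exact_mod_cast hbox L x hx) fun p hp => ⟨hp.2, by
      obtain ⟨ψ, hψ⟩ := (hw p hp.1).ker
      rw [hψ, absNorm_ker]⟩
  obtain ⟨φ, hφ⟩ : ∃ φ : ℕ → Ga → Xi n I → F2,
      ∀ p h ξ, φ p h ξ = kch ((α p).val : Om) (tr (pix n z) s h ξ) := ⟨_, fun _ _ _ => rfl⟩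
  obtain ⟨Q', q1, q2, q3, q4⟩ : ∃ Q' : Finset Ga, Q ⊆ Q' ∧ Φ.sg 2 ∈ Q' ∧
      (∀ i q, q.Prime → q ∣ z i → Φ.sg q ∈ Q') ∧ Q'.card ≤ 1 + 2 * c + Q.card := by
    classical
    refine ⟨insert (Φ.sg 2) ((univ.biUnion fun i => (z i).primeFactors).image Φ.sg) ∪ Q,
      subset_union_right, by simp, fun i q hq hd => mem_union_left _ (mem_insert_of_mem
        (mem_image_of_mem _ (mem_biUnion.2 ⟨i, mem_univ _,
          Nat.mem_primeFactors.2 ⟨hq, hd, hP.pos i⟩⟩))), (card_union_le _ _).trans ?_⟩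
    have h2 := card_insert_le (Φ.sg 2) ((univ.biUnion fun i => (z i).primeFactors).image Φ.sg)
    have h3 := card_image_le (s := univ.biUnion fun i => (z i).primeFactors) (f := Φ.sg)
    have h4 := card_biUnion_le_card_mul univ (fun i => (z i).primeFactors) 2 fun i _ => hz2 i
    rw [card_univ] at h4
    omega
  classical
  refine ⟨_, fun p => Fintype.equivFin (Fin T × (Q' → Xi n I → F2)) (τ p, fun h => φ p h), φ, ?_,
    fun t => ?_, ?_⟩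
  · rw [Fintype.card_prod, Fintype.card_fin, Fintype.card_fun, Fintype.card_fun, ZMod.card, hX,
      Fintype.card_coe]
    calc T * (2 ^ N) ^ Q'.card
        ≤ (((2 * Z) ^ C0) ^ N) ^ (N ^ 2 + 1) * (2 ^ N) ^ (1 + 2 * c + Q.card) :=
          Nat.mul_le_mul hT (Nat.pow_le_pow_right (by positivity) q4)
      _ = (2 * Z) ^ (C0 * N * (N ^ 2 + 1)) * 2 ^ (N * (1 + 2 * c)) * 2 ^ (N * Q.card) := by
          rw [pow_add (2 ^ N), ← pow_mul, ← pow_mul, ← pow_mul, ← pow_mul, ← mul_assoc, ← mul_assoc]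
      _ ≤ (2 * Z) ^ (C0 * N * (N ^ 2 + 1)) * (2 * Z) ^ (N * (1 + 2 * c)) * 2 ^ (C * Q.card) := by
          gcongr
          · norm_num
          · omega
      _ ≤ _ := by
          rw [← pow_add]
          exact Nat.mul_le_mul_right _ (Nat.pow_le_pow_right (by omega) c1)
  · have hcl : ∀ p p' : ℕ, Fintype.equivFin (Fin T × (Q' → Xi n I → F2)) (τ p, fun h => φ p h) = t →
        Fintype.equivFin (Fin T × (Q' → Xi n I → F2)) (τ p', fun h => φ p' h) = t →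
        τ p = τ p' ∧ ∀ h ∈ Q', φ p h = φ p' h := fun p p' e1 e2 => by
      have := Prod.ext_iff.1 ((Equiv.injective _) (e1.trans e2.symm))
      exact ⟨this.1, fun h hh => congrFun this.2 ⟨h, hh⟩⟩
    exact gv hL hK h1 hE hP.pos s hs hs0 w α _ _ Q Q'
      (fun p hp => ⟨hp.1, hKC.trans_lt hp.2.1, hw p hp.1,
        (hα p ⟨hp.1, hKC.trans_lt hp.2.1⟩).2.2.2⟩)
      (fun p hp p' hp' => hτ p ⟨hp.1, hKC.trans_lt hp.2.1⟩ p' ⟨hp'.1, hKC.trans_lt hp'.2.1⟩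
        (hcl p p' hp.2.2 hp'.2.2).1) q1 q2 q3 φ hφ fun p hp p' hp' => (hcl p p' hp.2.2 hp'.2.2).2
  intro μ A A' u v M M' Y hμ hY hAA hAA' hu hv
  have hY1 : 1 ≤ Y := (Nat.one_le_pow _ _ (by omega)).trans hY
  have hKY := hKC.trans hY
  have := hE.gal
  have hσ : Injective fun ξ => (s ξ).restrictNormal (kE n z) := by
    intro ξ η h
    have h2 : (s η)⁻¹ * s ξ ∈ (kE n z).fixingSubgroup := by
      refine (IntermediateField.mem_fixingSubgroup_iff _ _).2 fun x hx => ?_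
      have e1 := AlgEquiv.restrictNormal_commutes (s ξ) (kE n z) ⟨x, hx⟩
      have e2 := AlgEquiv.restrictNormal_commutes (s η) (kE n z) ⟨x, hx⟩
      beta_reduce at h
      rw [h, e2] at e1
      change s η x = s ξ x at e1
      rw [AlgEquiv.mul_apply, ← e1, ← AlgEquiv.mul_apply, inv_mul_cancel, AlgEquiv.one_apply]
    rw [hE.mem, hπ, pi_inv hπ, hs, hs, neg_add_eq_zero] at h2
    exact h2.symm
  have hdv : ∀ p ∈ A, ∀ q : ℕ, q.Prime → Y < q → (q : ℤ) ∣ Algebra.norm ℤ (a p) → q = p := by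
    intro p hp q hq hYq hd
    obtain ⟨-, -, ⟨k, k1, k2, k3⟩, -⟩ := hα p ⟨(hAA p hp).1, hKY.trans_lt (hAA p hp).2.1⟩
    rw [← dvd_abs, k3, ← Nat.cast_mul, Int.natCast_dvd_natCast] at hd
    rcases (Nat.Prime.dvd_mul hq).1 hd with h | h
    · exact (Nat.prime_dvd_prime_iff_eq hq (hAA p hp).1.1.1).1 h
    · have := Nat.le_of_dvd k1 h
      omega
  have hχ : ∀ b, ∃ χ : 𝓞 (kE n z) → ℝ, b ∈ A' → Chr e χ b ∧
      ∀ p ∈ A, p ≠ b → sg (∑ ξ ∈ μ, φ p (Φ.fr b) ξ) = χ (a p) := by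
    intro b
    by_cases hb : b ∈ A'
    swap
    · exact ⟨0, fun h => absurd h hb⟩
    obtain ⟨hsp, hYb, -⟩ := hAA' b hb
    have : Fact b.Prime := ⟨hsp.1.1⟩
    obtain ⟨ψ, hψ⟩ := (hw b hsp).ker
    refine ⟨_, fun _ => ⟨chr hsp.1.2.1 e ψ (hbij b ψ hsp.1.1 hsp.1.2.1 fun i => (hsp.2 i).1) _ hσ μ
      hμ, fun p hp hne => ?_⟩⟩
    rw [SH1.sg_sum]
    refine prod_congr rfl fun ξ _ => ?_
    have h0 : ψ ((s ξ).restrictNormal (kE n z) • a p) ≠ 0 := fun h =>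
      hne (hdv p hp b hsp.1.1 hYb (SH1.dvd_norm ψ _ _ h)).symm
    rw [hφ, tr_zero s (hE.spl b hsp).1, frob hR hK hE hsp (hw b hsp) ψ hψ _ _
      (hα p ⟨(hAA p hp).1, hKY.trans_lt (hAA p hp).2.1⟩).1 _ h0, hQ.sg b _ h0]
  choose χ hχ using hχ
  have huv : ∀ (p b : ℕ) (t : ℝ), |t| ≤ 1 → |u p * v b * t| ≤ 1 := fun p b t ht => by
    rw [abs_mul, abs_mul]
    exact mul_le_one₀ (mul_le_one₀ (hu p) (abs_nonneg _) (hv b)) (abs_nonneg _) ht
  refine (diag A A' _ (fun p b => u p * v b * χ b (a p)) M M' Y hY1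
    (fun p b => huv p b _ (abs_sg _)) (fun p _ b hb => huv p b _ ((hχ b hb).1.abs _))
    (fun p hp b hb hne => by rw [(hχ b hb).2 p hp hne]) (fun p hp => (hAA p hp).2)
    fun p hp => (hAA' p hp).2).trans ?_
  have h5 := hrect _ N e κ (Algebra.norm ℤ) a χ A A' u v M M' Y hN1 hY1 hkit
    (fun p hp => ⟨(hAA p hp).1.1.1, ?_, fun q hq => hdv p hp q (hAA q hq).1.1.1 (hAA q hq).2.1⟩)
    (fun p hp => ⟨(hAA p hp).2.1, (hAA p hp).2.2,
      (hα p ⟨(hAA p hp).1, hKY.trans_lt (hAA p hp).2.1⟩).2.1⟩)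
    (fun p hp => ⟨(hAA' p hp).1.1.1, (hAA' p hp).2.1, (hAA' p hp).2.2, (hχ p hp).1⟩) hu hv
  · have h6 := numer N C κ ((2 * Z) ^ C) M M' Y hN1 c3 hY1 ?_
    · push_cast at h6
      linarith
    calc (100 * κ) ^ N + 1 ≤ ((2 * Z) ^ 7 * (2 * Z) ^ C0) ^ N * 2 := by
          have e1 : 100 ≤ (2 * Z) ^ 7 := (by norm_num : 100 ≤ 2 ^ 7).trans (by gcongr)
          have e2 : (100 * κ) ^ N ≤ ((2 * Z) ^ 7 * (2 * Z) ^ C0) ^ N := by gcongr
          have e3 : 1 ≤ ((2 * Z) ^ 7 * (2 * Z) ^ C0) ^ N := Nat.one_le_pow _ _ (by positivity)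
          omega
      _ ≤ (2 * Z) ^ ((7 + C0) * N + 1) := by
          rw [← pow_add, ← pow_mul, pow_succ]
          gcongr
      _ ≤ _ := Nat.pow_le_pow_right (by omega) c4
  · obtain ⟨-, -, ⟨k, -, -, k3⟩, -⟩ := hα p ⟨(hAA p hp).1, hKY.trans_lt (hAA p hp).2.1⟩
    rw [← dvd_abs, k3]
    exact dvd_mul_right _ _

end Pool.Agent.MP_1246c0_nt.H25
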