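import Pool.Agent.MP_1246c0_nt.H25.SpecN

/-! Top levels are rarely bad. -/

namespace Pool.Agent.MP_1246c0_nt.H25

open Finset Matrix Filter Function Pool.Agent.MP_db5b97_nt.H85
open Pool.Agent.MP_1246c0_nt.H12

namespace E4

theorem ind_mono {p q : Prop} (h : p → q) : ind p ≤ ind q := by
  unfold ind
  split_ifs with h1 h2
  exacts [le_rfl, absurd (h h1) h2, zero_le_one, le_rfl]

theorem prs_congr {α : Type} (f : ℕ → α) (Sg : Finset ℕ) {m : ℕ} {p p' : Fin m → ℕ}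
    (h : ∀ i, f (p i) = f (p' i)) : (fun i => f (prs Sg p i)) = fun i => f (prs Sg p' i) := by
  funext i
  rcases i with i | i
  exacts [rfl, h i]

theorem cX_eq (D : ∀ n, Dat n) {Λ : Type} [CommRing Λ] (g : Λ) {n l : ℕ} (h : n ≤ lev l) :
    cX D n g l = cv g ((D n).cc l) :=
  congrArg (fun k => cv g ((D k).cc l)) (min_eq_right h)

end E4

open E4 in
theorem rowE4 : OfE4 := by
  intro hL hP _ hD hR hG hQ K j ε hε
  obtain ⟨n0, hR⟩ := hR K j (ε / 2) (by positivity)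
  refine ⟨n0, fun S π hS hK hj hn hjn => ?_⟩
  obtain ⟨Λ, _, _, st, au, g, hg⟩ := hL.ex π.nT
  have : Fintype Λ := Fintype.ofFinite Λ
  filter_upwards [hQ S π hS, hP π.j0 (((2 : ℝ) ^ π.nT) ^ 5 + Fintype.card Λ + 2 / ε + π.nT + 5)]
    with X hX hp
  obtain ⟨h1, -, -, -, -, -, h2, -⟩ := hp
  have p1 : (0 : ℝ) ≤ ((2 : ℝ) ^ π.nT) ^ 5 := by positivity
  have p2 : (0 : ℝ) ≤ Fintype.card Λ := by positivity
  have p3 : (0 : ℝ) < 2 / ε := by positivity
  have p4 : (0 : ℝ) ≤ π.nT := by positivity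
  have htp : π.nT + 5 ≤ tpX X π.j0 := by
    have : ((π.nT + 5 : ℕ) : ℝ) ≤ tpX X π.j0 := by push_cast; linarith
    exact_mod_cast this
  have h3 := hX π.nT Λ Λ st au g (cX S.D π.nT g) (fun Sg m _ p M => ∃ a, tpX X π.j0 - 2 ≤ a ∧ ∃ b,
      BadU (fun i => lev (prs Sg p i)) (fun i => cX S.D π.nT g (prs Sg p i)) M a b) (ε / 2) hg
    (by linarith) ?_ (by positivity) ?_ ?_
  · refine le_trans (hG.mono X _ _ fun Sg m i1 p P _ => ind_mono ?_) (h3.trans ?_)
    · rintro ⟨hN, a, ha, hH⟩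
      refine ⟨hN, fun M' hM => ?_⟩
      rcases (hH π.nT Λ st au g M' hg (by omega) hM).2 with h | h
      exacts [⟨a, by omega, _, h⟩, ⟨a - 1, by omega, _, h⟩]
    · have e1 : 2 / ε ≤ Real.exp (ll X) := by linarith [Real.add_one_le_exp (ll X)]
      have e2 : (X : ℝ) / Real.exp (ll X) ≤ X / (2 / ε) := by gcongr
      have e3 : (X : ℝ) / (2 / ε) = ε / 2 * X := by field_simp
      linarith
  · have e1 : 1 ≤ ll X := by linarith
    nlinarith [Real.add_one_le_exp (ll X ^ 2)]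
  · intro Sg m _ p p' M h hb
    rwa [← prs_congr lev Sg fun i => (h i).1, ← prs_congr (cX S.D π.nT g) Sg fun i => (h i).2.2]
  · intro Sg m i1 p P _ hN
    refine hR π.nT Λ _ st au g _ _ _ _ _ hn hg (hK ▸ hN.top) fun l hl => ⟨?_, fun hd => ?_⟩
    · by_contra hB
      have := hN.nc.low l hB
      omega
    · refine hN.unit l hl (hj ▸ hD.ring π.nT j Λ st au g _ hg hjn ?_)
      rwa [cX_eq _ _ (by omega)] at hd

end Pool.Agent.MP_1246c0_nt.H25
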